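import Pool.Agent.Helper91.SL.Def

/-!
P4a: factorisation of a function of two variables by minors of maximal size.
-/

set_option autoImplicit false

namespace Pool.Agent.Helper36.SL

open Pool.Agent.Helper91.SL

theorem rank : S_Rank := by
  classical
  intro K _ A B t d ht hd
  obtain ⟨r, hr, ⟨a0, b0, hdet⟩, hn⟩ : ∃ r : ℕ, 0 < r ∧
      (∃ (a : Fin r → A) (b : Fin r → B), (Matrix.of fun i j => t (a i) (b j)).det ≠ 0) ∧
      ¬ (∃ (a : Fin (r + 1) → A) (b : Fin (r + 1) → B),
        (Matrix.of fun i j => t (a i) (b j)).det ≠ 0) := by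
    by_contra hcon
    push Not at hcon
    have h : ∀ r : ℕ, ∃ (a : Fin (r + 1) → A) (b : Fin (r + 1) → B),
        (Matrix.of fun i j => t (a i) (b j)).det ≠ 0 := by
      intro r
      induction r with
      | zero =>
        obtain ⟨a, b, hab⟩ := ht
        refine ⟨fun _ => a, fun _ => b, ?_⟩
        show (Matrix.of fun (_ _ : Fin 1) => t a b).det ≠ 0
        rw [Matrix.det_unique]
        exact hab
      | succ r ih =>
        obtain ⟨a, b, hab⟩ := ih
        exact hcon (r + 1) (Nat.succ_pos r) ⟨a, b, hab⟩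
    obtain ⟨a, b, hab⟩ := h d
    exact hab (hd a b)
  push Not at hn
  refine ⟨r, a0, b0, hr, hdet, ?_⟩
  obtain ⟨M, hM⟩ : ∃ M : Matrix (Fin r) (Fin r) K, M = Matrix.of fun i j => t (a0 i) (b0 j) :=
    ⟨_, rfl⟩
  rw [← hM] at hdet ⊢
  have hu : IsUnit M.det := isUnit_iff_ne_zero.2 hdet
  let iM : Invertible M := Matrix.invertibleOfIsUnitDet M hu
  have key : ∀ a b, t a b = ((Matrix.of fun (_ : Unit) j => t a (b0 j)) * ⅟M *
      (Matrix.of fun i (_ : Unit) => t (a0 i) b)) () () := by
    intro a b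
    have h1 := hn ((Sum.elim a0 fun _ : Unit => a) ∘ (finSumFinEquiv.symm.trans
      ((Equiv.refl (Fin r)).sumCongr finOneEquiv))) ((Sum.elim b0 fun _ : Unit => b) ∘
      (finSumFinEquiv.symm.trans ((Equiv.refl (Fin r)).sumCongr finOneEquiv)))
    have h2 : (Matrix.of fun i j => t (((Sum.elim a0 fun _ : Unit => a) ∘
        (finSumFinEquiv.symm.trans ((Equiv.refl (Fin r)).sumCongr finOneEquiv))) i)
        (((Sum.elim b0 fun _ : Unit => b) ∘
        (finSumFinEquiv.symm.trans ((Equiv.refl (Fin r)).sumCongr finOneEquiv))) j)) =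
        (Matrix.of fun i j => t ((Sum.elim a0 fun _ : Unit => a) i)
          ((Sum.elim b0 fun _ : Unit => b) j)).submatrix
          (finSumFinEquiv.symm.trans ((Equiv.refl (Fin r)).sumCongr finOneEquiv))
          (finSumFinEquiv.symm.trans ((Equiv.refl (Fin r)).sumCongr finOneEquiv)) := rfl
    rw [h2, Matrix.det_submatrix_equiv_self] at h1
    have h3 : (Matrix.of fun i j => t ((Sum.elim a0 fun _ : Unit => a) i)
          ((Sum.elim b0 fun _ : Unit => b) j)) =
        Matrix.fromBlocks M (Matrix.of fun i (_ : Unit) => t (a0 i) b)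
          (Matrix.of fun (_ : Unit) j => t a (b0 j)) (Matrix.of fun _ _ => t a b) := by
      rw [hM]
      ext i j
      rcases i with i | i <;> rcases j with j | j <;> rfl
    rw [h3, Matrix.det_fromBlocks₁₁, mul_eq_zero] at h1
    have h4 := h1.resolve_left hdet
    rw [Matrix.det_unique, Matrix.sub_apply, sub_eq_zero] at h4
    exact h4
  intro a b
  have h5 : (Matrix.of fun i j => t (a i) (b j)) = (Matrix.of fun i j => t (a i) (b0 j)) * ⅟M *
      (Matrix.of fun i j => t (a0 i) (b j)) := by
    ext i j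
    rw [Matrix.of_apply, key, Matrix.mul_apply, Matrix.mul_apply]
    refine Finset.sum_congr rfl fun k _ => ?_
    rw [Matrix.mul_apply, Matrix.mul_apply]
    rfl
  have h6 : M.det * (⅟M).det = 1 := by
    rw [← Matrix.det_mul, mul_invOf_self, Matrix.det_one]
  rw [h5, Matrix.det_mul, Matrix.det_mul]
  linear_combination ((Matrix.of fun i j => t (a i) (b0 j)).det *
    (Matrix.of fun i j => t (a0 i) (b j)).det) * h6

end Pool.Agent.Helper36.SL
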